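import Pool.Agent.DEH.PolyDiag

open Complex Polynomial Pool.Agent.ANT Filter Pool.Agent.DEH

namespace Pool.Agent.Results.MP_e9eb55_nt.PolynomialValues

/-- For every integer polynomial `F` of degree `d ≥ 1` with positive leading coefficient, the
diagonal Moebius-twisted Elliott-Halberstam estimate holds for `N = F(k)` at every level `N^θ`,
`θ < 1/(2d)`, for all `k` outside one set `B` with at most `K (log K)^(-A)` elements up to `K`. -/
theorem result (F : ℤ[X]) (hd : 1 ≤ F.natDegree) (ha : 0 < F.leadingCoeff) : ∃ B : Set ℕ,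
    (∀ A : ℕ, ∃ K₀ : ℕ, ∀ K : ℕ, K₀ ≤ K →
      (({k : ℕ | k ∈ B ∧ k ≤ K}).ncard : ℝ) ≤ K / Real.log K ^ A) ∧
    ∀ θ : ℝ, 0 < θ → θ < 1 / (2 * F.natDegree) → ∀ A : ℕ, ∃ k₀ : ℕ, ∀ k : ℕ, k₀ ≤ k → k ∉ B →
      ∀ N : ℕ, (N : ℤ) = F.eval (k : ℤ) →
        D g1 N ((N : ℝ) ^ θ) ≤ N / Real.log N ^ A ∧ D g2 N ((N : ℝ) ^ θ) ≤ N / Real.log N ^ A := by
  classical
  have hdR : (1:ℝ) ≤ F.natDegree := by exact_mod_cast hd
  obtain ⟨k1, hk1⟩ := val_lower hd ha
  have h1 : ∀ n : ℕ, ∀ᶠ T : ℕ in atTop, ∀ K : ℕ, T ≤ K →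
      (((Finset.Ioc 0 K).filter (fun k => k ∈ BadN F n)).card : ℝ) ≤ K / Real.log K ^ n := by
    intro n
    obtain ⟨a, ha⟩ := eventually_atTop.mp (count_badN hd ha n)
    filter_upwards [eventually_ge_atTop a] with T hT K hK
    exact ha K (hT.trans hK)
  obtain ⟨φ, hφ, hcount⟩ := extraction_forall_of_eventually (P := fun n T => ∀ K : ℕ, T ≤ K →
      (((Finset.Ioc 0 K).filter (fun k => k ∈ BadN F n)).card : ℝ) ≤ K / Real.log K ^ n) h1
  refine ⟨{k | ∃ n, φ n ≤ k ∧ k ∈ BadN F n}, fun A => ⟨max (φ A) 3, fun K hK => ?_⟩, ?_⟩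
  · have hKA : φ A ≤ K := (le_max_left _ _).trans hK
    have hK3 : 3 ≤ K := (le_max_right _ _).trans hK
    set R := Nat.findGreatest (fun n => φ n ≤ K) K with hR
    have hAK : A ≤ K := (hφ.id_le A).trans hKA
    have hRspec : φ R ≤ K := Nat.findGreatest_spec (P := fun n => φ n ≤ K) hAK hKA
    have hAR : A ≤ R := Nat.le_findGreatest hAK hKA
    have hsub : {k : ℕ | k ∈ {k | ∃ n, φ n ≤ k ∧ k ∈ BadN F n} ∧ k ≤ K} ⊆
        (((Finset.Ioc 0 K).filter (fun k => k ∈ BadN F R) : Finset ℕ) : Set ℕ) := by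
      rintro k ⟨⟨n, hn1, hn2⟩, hkK⟩
      have hnK : φ n ≤ K := hn1.trans hkK
      have hnR : n ≤ R := Nat.le_findGreatest ((hφ.id_le n).trans hnK) hnK
      exact Finset.mem_coe.mpr (Finset.mem_filter.mpr
        ⟨Finset.mem_Ioc.mpr ⟨hn2.1, hkK⟩, BadN_mono F hnR hn2⟩)
    have hn := Set.ncard_le_ncard hsub (Finset.finite_toSet _)
    rw [Set.ncard_coe_finset] at hn
    have hlog := one_le_log (show (3:ℝ) ≤ K by exact_mod_cast hK3)
    calc _ ≤ (((Finset.Ioc 0 K).filter (fun k => k ∈ BadN F R)).card : ℝ) := by exact_mod_cast hn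
      _ ≤ K / Real.log K ^ R := hcount R K hRspec
      _ ≤ K / Real.log K ^ A := by
          have : Real.log K ^ A ≤ Real.log K ^ R := pow_le_pow_right₀ hlog hAR
          gcongr
  · intro θ hθ0 hθ A
    obtain ⟨n, hnA, hnθ⟩ : ∃ n : ℕ, A ≤ n ∧ θ ≤ th F.natDegree n := by
      have hpos : 0 < 1 - θ * (2 * F.natDegree) := by
        rw [lt_div_iff₀ (by positivity)] at hθ
        linarith
      obtain ⟨j, hj⟩ := exists_nat_ge (1 / (1 - θ * (2 * F.natDegree)))
      refine ⟨max A j, le_max_left _ _, ?_⟩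
      unfold th
      rw [le_div_iff₀ (by positivity)]
      have h2 : (j:ℝ) ≤ ((max A j : ℕ) : ℝ) := by exact_mod_cast le_max_right _ _
      have h3 : 1 / (((max A j : ℕ) : ℝ) + 1) ≤ 1 - θ * (2 * F.natDegree) := by
        rw [div_le_iff₀ (by positivity)]
        rw [div_le_iff₀ hpos] at hj
        nlinarith
      linarith
    refine ⟨max (φ n) (max k1 6), fun k hk hkB N hN => ?_⟩
    have hkφ : φ n ≤ k := (le_max_left _ _).trans hk
    have hk1' : k1 ≤ k := ((le_max_left _ _).trans (le_max_right _ _)).trans hk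
    have hk6 : 6 ≤ k := ((le_max_right _ _).trans (le_max_right _ _)).trans hk
    have hNv : N = val F k := by unfold val; omega
    have hv := hk1 k hk1'
    have hk6R : (6:ℝ) ≤ k := by exact_mod_cast hk6
    have hN3 : (3:ℝ) ≤ val F k := by
      have : (k:ℝ) ≤ (k:ℝ) ^ F.natDegree := le_self_pow₀ (by linarith) (by omega)
      linarith
    have hlog := one_le_log hN3
    have hnot : k ∉ BadN F n := fun h => hkB ⟨n, hkφ, h⟩
    have hnot2 : ¬ (k ∈ BadP F g1 (th F.natDegree n) n ∨ k ∈ BadP F g2 (th F.natDegree n) n) :=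
      fun h => hnot ⟨by omega, by exact_mod_cast hN3, h⟩
    push Not at hnot2
    obtain ⟨hn1, hn2⟩ := hnot2
    have hb1 : D g1 (val F k) ((val F k : ℝ) ^ th F.natDegree n) ≤
        (val F k:ℝ) / Real.log (val F k) ^ n := not_lt.mp hn1
    have hb2 : D g2 (val F k) ((val F k : ℝ) ^ th F.natDegree n) ≤
        (val F k:ℝ) / Real.log (val F k) ^ n := not_lt.mp hn2
    have hlev : (val F k : ℝ) ^ θ ≤ (val F k : ℝ) ^ th F.natDegree n :=
      Real.rpow_le_rpow_of_exponent_le (by linarith) hnθ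
    have hthr : (val F k:ℝ) / Real.log (val F k) ^ n ≤ val F k / Real.log (val F k) ^ A := by
      have : Real.log (val F k) ^ A ≤ Real.log (val F k) ^ n := pow_le_pow_right₀ hlog hnA
      gcongr
    rw [hNv]
    exact ⟨((D_mono g1 _ hlev).trans hb1).trans hthr, ((D_mono g2 _ hlev).trans hb2).trans hthr⟩

end Pool.Agent.Results.MP_e9eb55_nt.PolynomialValues
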