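import Pool.Agent.DEH.Sharp6
import Pool.Agent.DEH.Count

open Complex Pool.Agent.ANT Filter Pool.Agent.DEH

namespace Pool.Agent.Results.MP_e9eb55_nt.Sharpness

/-- The range `N^θ`, `θ < 1`, cannot be extended to the levels `N / (log N)^B`: for every `B`, the
discrepancy of `g₁ = μ` at this level is at least `N / (log N)^(B + 8)` for every large `N`. -/
theorem result (B : ℕ) : ∃ N₀ : ℕ, ∀ N : ℕ, N₀ ≤ N →
    N / Real.log N ^ (B + 8) ≤ D g1 N (N / Real.log N ^ B) := by
  obtain ⟨N₀, hN₀⟩ := eventually_atTop.mp (lower_D B)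
  refine ⟨max N₀ 3, fun N hN => ?_⟩
  have h1 := hN₀ N ((le_max_left _ _).trans hN)
  have hN3 : 3 ≤ N := (le_max_right _ _).trans hN
  have hlog := one_le_log (show (3:ℝ) ≤ N by exact_mod_cast hN3)
  refine h1.trans (D_mono g1 N ?_)
  have h2 : Real.log N ^ B ≤ Real.log N ^ (B + 2) := pow_le_pow_right₀ hlog (by omega)
  gcongr

end Pool.Agent.Results.MP_e9eb55_nt.Sharpness
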